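import Pool.Agent.H.MP_86e52e_an.B
set_option autoImplicit false

namespace Pool.Agent.Results.MP_86e52e_an.Yes
open Pool.Agent.H.MP_1a7c10_an

/-- The set `B` is equivalent to the unit vector basis of `ℓ_p`. -/
def SetEquivLp (p : ℝ) {X : Type} [AddCommGroup X] [Module ℝ X] (N : X → ℝ) (B : Set X) : Prop :=
  ∃ c C : ℝ, 0 < c ∧ c ≤ C ∧ ∀ (F : Finset X) (a : X → ℝ), (F : Set X) ⊆ B →
    c * (∑ x ∈ F, |a x| ^ p) ^ (1 / p) ≤ N (∑ x ∈ F, a x • x) ∧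
    N (∑ x ∈ F, a x • x) ≤ C * (∑ x ∈ F, |a x| ^ p) ^ (1 / p)

theorem result (p : ℝ) (hp0 : 0 < p) (hp1 : p < 1) :
    ∃ (X : Type) (_ : AddCommGroup X) (_ : Module ℝ X) (N : X → ℝ),
      IsPBanach ℝ p X N ∧ (∃ x : X, x ≠ 0) ∧
      (∀ A : Set X, A.Infinite → (∃ R : ℝ, ∀ x ∈ A, N x ≤ R) →
        (∃ s > 0, ∀ x ∈ A, ∀ y ∈ A, x ≠ y → s ≤ N (x - y)) →
        ∃ B ⊆ A, B.Infinite ∧ SetEquivLp p N B) ∧
      ∀ φ : X →ₗ[ℝ] ℝ, (∃ C : ℝ, ∀ x, |φ x| ≤ C * N x) → φ = 0 := by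
  classical
  obtain ⟨X, _, _, N, h1, h2, h3, h4⟩ := Pool.Agent.H.MP_86e52e_an.main hp0 hp1
  refine ⟨X, inferInstance, inferInstance, N, h1, h2, fun A a1 a2 a3 => ?_, h4⟩
  obtain ⟨x, hx, c, C, c0, cC, hl⟩ := h3 A a1 a2 a3
  have hinj : Function.Injective x := by
    intro k l hkl
    by_contra hne
    have := (hl {k, l} (fun n => if n = k then 1 else -1)).1
    rw [Finset.sum_pair hne, Finset.sum_pair hne] at this
    simp only [if_true, if_neg (Ne.symm hne), hkl, norm_one, norm_neg, Real.one_rpow, one_smul,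
      neg_smul, add_neg_cancel, h1.zero] at this
    have : 0 < c * (1 + 1 : ℝ) ^ (1 / p) := by positivity
    linarith
  refine ⟨Set.range x, by rintro _ ⟨n, rfl⟩; exact hx n, Set.infinite_range_of_injective hinj,
    c, C, c0, cC, fun F a hF => ?_⟩
  obtain ⟨s, rfl⟩ : ∃ s : Finset ℕ, s.image x = F := by
    rw [← Set.image_univ] at hF
    obtain ⟨s, -, hs⟩ := Finset.subset_set_image_iff.mp hF
    exact ⟨s, hs⟩
  rw [Finset.sum_image (fun a _ b _ h => hinj h), Finset.sum_image (fun a _ b _ h => hinj h)]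
  exact hl s (fun n => a (x n))

end Pool.Agent.Results.MP_86e52e_an.Yes
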